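import Mathlib
import Pool.Agent.H23.DM.La

/-!
MP_d9606f_gt, full theorem, part (I0): calculus of jets, definitions (helper56).

`Mo d r` is the set of the multi-indices `a` with `1 ≤ |a| ≤ r`, `dg a = |a|`, `mo a v = v ^ a`,
`mon r v` is the vector of the monomials `v ^ a`, `a` in `Mo d r`, and `e1 hr i` is the multi-index
of degree one in the direction `i`.
-/

open Matrix Filter
open scoped Topology ContDiff

namespace Pool.Agent.H56.JT

open Pool.Agent.H23.DM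

noncomputable section

/-- Euclidean space. -/
abbrev V (d : ℕ) : Type := EuclideanSpace ℝ (Fin d)

/-- The multi-indices of degree between `1` and `r`. -/
abbrev Mo (d r : ℕ) : Type :=
  {a : Fin d → Fin (r + 1) // 1 ≤ ∑ i, (a i : ℕ) ∧ ∑ i, (a i : ℕ) ≤ r}

/-- The degree of a multi-index. -/
def dg {d r : ℕ} (a : Mo d r) : ℕ := ∑ i, (a.1 i : ℕ)

/-- The monomial `v ^ a`. -/
def mo {d : ℕ} (a : Fin d → ℕ) (v : V d) : ℝ := ∏ i, v i ^ a i

/-- The vector of the monomials of degree between `1` and `r`. -/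
def mon {d : ℕ} (r : ℕ) (v : V d) : Mo d r → ℝ := fun a => ∏ i, v i ^ (a.1 i : ℕ)

/-- The multi-index of degree one in the direction `i`. -/
def e1 {d r : ℕ} (hr : 0 < r) (i : Fin d) : Mo d r :=
  ⟨fun j => if j = i then ⟨1, by omega⟩ else 0, by
    have h : ∑ j, ((if j = i then (⟨1, by omega⟩ : Fin (r + 1)) else 0 : Fin (r + 1)) : ℕ) = 1 := by
      rw [Finset.sum_eq_single i]
      · simp
      · intro j _ hj
        simp [hj]
      · simp
    rw [h]
    omega⟩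

theorem dg_e1 {d r : ℕ} (hr : 0 < r) (i : Fin d) : dg (e1 hr i) = 1 := by
  unfold dg e1
  rw [Finset.sum_eq_single i]
  · simp
  · intro j _ hj
    simp [hj]
  · simp

theorem one_le_dg {d r : ℕ} (a : Mo d r) : 1 ≤ dg a := a.2.1

theorem dg_le {d r : ℕ} (a : Mo d r) : dg a ≤ r := a.2.2

theorem mon_eq {d r : ℕ} (v : V d) (a : Mo d r) : mon r v a = mo (fun i => (a.1 i : ℕ)) v := rfl

theorem mo_zero {d : ℕ} (v : V d) : mo (0 : Fin d → ℕ) v = 1 := by simp [mo]

theorem mo_add {d : ℕ} (a b : Fin d → ℕ) (v : V d) : mo (a + b) v = mo a v * mo b v := by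
  simp [mo, pow_add, Finset.prod_mul_distrib]

theorem abs_apply_le {d : ℕ} (v : V d) (i : Fin d) : |v i| ≤ ‖v‖ := by
  have h := PiLp.norm_apply_le v i
  simpa using h

theorem abs_mo_le {d : ℕ} (a : Fin d → ℕ) (v : V d) : |mo a v| ≤ ‖v‖ ^ (∑ i, a i) := by
  unfold mo
  rw [Finset.abs_prod, ← Finset.prod_pow_eq_pow_sum]
  refine Finset.prod_le_prod (fun i _ => abs_nonneg _) fun i _ => ?_
  rw [abs_pow]
  exact pow_le_pow_left₀ (abs_nonneg _) (abs_apply_le v i) _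

theorem mo_smul {d : ℕ} (a : Fin d → ℕ) (t : ℝ) (v : V d) :
    mo a (t • v) = t ^ (∑ i, a i) * mo a v := by
  unfold mo
  rw [← Finset.prod_pow_eq_pow_sum, ← Finset.prod_mul_distrib]
  refine Finset.prod_congr rfl fun i _ => ?_
  simp [mul_pow]

theorem mo_at_zero {d : ℕ} (a : Fin d → ℕ) (ha : 1 ≤ ∑ i, a i) : mo a (0 : V d) = 0 := by
  have h := abs_mo_le a (0 : V d)
  rw [norm_zero, zero_pow (by omega)] at h
  exact abs_nonpos_iff.1 h

theorem mon_at_zero {d r : ℕ} (a : Mo d r) : mon r (0 : V d) a = 0 := by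
  rw [mon_eq]
  exact mo_at_zero _ a.2.1

theorem abs_mon_le {d r : ℕ} (a : Mo d r) (v : V d) : |mon r v a| ≤ ‖v‖ ^ dg a :=
  abs_mo_le _ v

theorem mon_e1 {d r : ℕ} (hr : 0 < r) (i : Fin d) (v : V d) : mon r v (e1 hr i) = v i := by
  unfold mon e1
  rw [Finset.prod_eq_single i]
  · simp
  · intro j _ hj
    simp [hj]
  · simp

theorem vn_le_sum {ι : Type} [Fintype ι] (y : ι → ℝ) : vn y ≤ ∑ i, |y i| := by
  unfold vn
  rw [Real.sqrt_le_iff]
  refine ⟨Finset.sum_nonneg fun i _ => abs_nonneg _, ?_⟩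
  calc ∑ i, y i ^ 2 = ∑ i, |y i| ^ 2 := by simp
    _ ≤ (∑ i, |y i|) ^ 2 := Finset.sum_sq_le_sq_sum_of_nonneg fun i _ => abs_nonneg _

theorem abs_le_vn {ι : Type} [Fintype ι] (y : ι → ℝ) (i : ι) : |y i| ≤ vn y := by
  unfold vn
  rw [← Real.sqrt_sq_eq_abs]
  exact Real.sqrt_le_sqrt (Finset.single_le_sum (f := fun i => y i ^ 2)
    (fun j _ => sq_nonneg _) (Finset.mem_univ i))

end

end Pool.Agent.H56.JT
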