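import Mathlib
import Pool.Agent.H56.JT.Defs

/-!
MP_d9606f_gt, full theorem, part (I0): functions with a uniform polynomial expansion (helper56).

`Ex K r g`: uniformly for `x` in `K` and small `v`, `g x v` is a polynomial in `v` of degree at most
`r`, with coefficients continuous on `K`, up to `O(|v| ^ (r + 1))`.  This class is closed under
sums and products.
-/

open Matrix Filter
open scoped Topology ContDiff

namespace Pool.Agent.H56.JT

open Pool.Agent.H23.DM

/-- The function `g` has a uniform polynomial expansion of degree `r` on `K`. -/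
def Ex {d : ℕ} (K : Set (V d)) (r : ℕ) (g : V d → V d → ℝ) : Prop :=
  ∃ (c0 : V d → ℝ) (c : Mo d r → V d → ℝ), ContinuousOn c0 K ∧ (∀ b, ContinuousOn (c b) K) ∧
    ∃ C δ : ℝ, 0 ≤ C ∧ 0 < δ ∧ ∀ x ∈ K, ∀ v, ‖v‖ ≤ δ →
      |g x v - (c0 x + ∑ b, c b x * mon r v b)| ≤ C * ‖v‖ ^ (r + 1)

variable {d : ℕ} {K : Set (V d)} {r : ℕ}

theorem Ex.congr {g g' : V d → V d → ℝ} (h : Ex K r g) {C δ : ℝ} (hC : 0 ≤ C) (hδ : 0 < δ)
    (hg : ∀ x ∈ K, ∀ v, ‖v‖ ≤ δ → |g' x v - g x v| ≤ C * ‖v‖ ^ (r + 1)) : Ex K r g' := by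
  obtain ⟨c0, c, h0, h1, C', δ', hC', hδ', h2⟩ := h
  refine ⟨c0, c, h0, h1, C + C', min δ δ', add_nonneg hC hC', lt_min hδ hδ', fun x hx v hv => ?_⟩
  have e : g' x v - (c0 x + ∑ b, c b x * mon r v b) =
      (g' x v - g x v) + (g x v - (c0 x + ∑ b, c b x * mon r v b)) := by ring
  rw [e]
  refine (abs_add_le _ _).trans ?_
  have h3 := hg x hx v (hv.trans (min_le_left _ _))
  have h4 := h2 x hx v (hv.trans (min_le_right _ _))
  linarith

theorem Ex.congr' {g g' : V d → V d → ℝ} (h : Ex K r g) (hg : ∀ x ∈ K, ∀ v, g' x v = g x v) :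
    Ex K r g' :=
  h.congr le_rfl one_pos fun x hx v _ => by rw [hg x hx v]; simp

theorem Ex.zero : Ex K r (fun _ _ => 0) :=
  ⟨fun _ => 0, fun _ _ => 0, continuousOn_const, fun _ => continuousOn_const, 0, 1, le_rfl,
    one_pos, fun x _ v _ => by simp⟩

theorem Ex.add {g g' : V d → V d → ℝ} (h : Ex K r g) (h' : Ex K r g') :
    Ex K r (fun x v => g x v + g' x v) := by
  obtain ⟨c0, c, h0, h1, C, δ, hC, hδ, h2⟩ := h
  obtain ⟨c0', c', h0', h1', C', δ', hC', hδ', h2'⟩ := h'
  refine ⟨fun x => c0 x + c0' x, fun b x => c b x + c' b x, h0.add h0', fun b => (h1 b).add (h1' b),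
    C + C', min δ δ', add_nonneg hC hC', lt_min hδ hδ', fun x hx v hv => ?_⟩
  have e : g x v + g' x v - (c0 x + c0' x + ∑ b, (c b x + c' b x) * mon r v b) =
      (g x v - (c0 x + ∑ b, c b x * mon r v b)) +
      (g' x v - (c0' x + ∑ b, c' b x * mon r v b)) := by
    simp only [add_mul, Finset.sum_add_distrib]
    ring
  rw [e]
  refine (abs_add_le _ _).trans ?_
  have h3 := h2 x hx v (hv.trans (min_le_left _ _))
  have h4 := h2' x hx v (hv.trans (min_le_right _ _))
  linarith

theorem Ex.sum {ι : Type} (s : Finset ι) {g : ι → V d → V d → ℝ}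
    (h : ∀ i ∈ s, Ex K r (g i)) : Ex K r (fun x v => ∑ i ∈ s, g i x v) := by
  classical
  induction s using Finset.induction_on with
  | empty => simpa using (Ex.zero : Ex K r _)
  | insert i s hi ih =>
    have h1 := (h i (Finset.mem_insert_self i s)).add
      (ih fun j hj => h j (Finset.mem_insert_of_mem hj))
    refine h1.congr' fun x _ v => ?_
    rw [Finset.sum_insert hi]

theorem exists_bd (hK : IsCompact K) {c : V d → ℝ} (hc : ContinuousOn c K) :
    ∃ B : ℝ, 0 ≤ B ∧ ∀ x ∈ K, |c x| ≤ B := by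
  obtain ⟨B, hB⟩ := hK.exists_bound_of_continuousOn hc
  exact ⟨max B 0, le_max_right _ _, fun x hx => (hB x hx).trans (le_max_left _ _)⟩

/-- A continuous function of `x` times a monomial in `v`. -/
theorem Ex.mo (hK : IsCompact K) {c : V d → ℝ} (hc : ContinuousOn c K) (a : Fin d → ℕ) :
    Ex K r (fun x v => c x * mo a v) := by
  classical
  obtain ⟨B, hB0, hB⟩ := exists_bd hK hc
  by_cases h0 : ∑ i, a i = 0
  · have ha : a = 0 := by
      funext i
      exact Finset.sum_eq_zero_iff.1 h0 i (Finset.mem_univ i)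
    refine ⟨c, fun _ _ => 0, hc, fun _ => continuousOn_const, 0, 1, le_rfl, one_pos,
      fun x _ v _ => ?_⟩
    subst ha
    simp [mo_zero]
  · by_cases h1 : ∑ i, a i ≤ r
    · have hai : ∀ i, a i < r + 1 := fun i =>
        Nat.lt_succ_of_le ((Finset.single_le_sum (fun j _ => Nat.zero_le (a j))
          (Finset.mem_univ i)).trans h1)
      let b0 : Mo d r := ⟨fun i => ⟨a i, hai i⟩, by
        change 1 ≤ ∑ i, a i
        omega, h1⟩
      refine ⟨fun _ => 0, fun b x => if b = b0 then c x else 0, continuousOn_const, fun b => ?_,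
        0, 1, le_rfl, one_pos, fun x _ v _ => ?_⟩
      · by_cases hb : b = b0
        · simpa [hb] using hc
        · simpa [hb] using continuousOn_const
      · have e : ∑ b, (if b = b0 then c x else 0) * mon r v b = c x * JT.mo a v := by
          rw [Finset.sum_eq_single b0]
          · rw [if_pos rfl]
            rfl
          · intro b _ hb
            rw [if_neg hb, zero_mul]
          · intro h
            exact absurd (Finset.mem_univ _) h
        rw [e]
        simp
    · refine ⟨fun _ => 0, fun _ _ => 0, continuousOn_const, fun _ => continuousOn_const, B, 1, hB0,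
        one_pos, fun x hx v hv => ?_⟩
      simp only [zero_mul, Finset.sum_const_zero, add_zero, sub_zero]
      rw [abs_mul]
      refine mul_le_mul (hB x hx) ((abs_mo_le a v).trans ?_) (abs_nonneg _) hB0
      exact pow_le_pow_of_le_one (norm_nonneg _) hv (by omega)

theorem Ex.const (hK : IsCompact K) {c : V d → ℝ} (hc : ContinuousOn c K) :
    Ex K r (fun x _ => c x) :=
  (Ex.mo hK hc 0).congr' fun x _ v => by rw [mo_zero, mul_one]

theorem Ex.coord (hK : IsCompact K) (i : Fin d) : Ex K r (fun _ v => v i) := by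
  classical
  refine (Ex.mo (c := fun _ => 1) hK continuousOn_const (Pi.single i 1)).congr' fun x _ v => ?_
  unfold JT.mo
  rw [one_mul, Finset.prod_eq_single i]
  · simp
  · intro j _ hj
    simp [hj]
  · simp

theorem Ex.mul (hK : IsCompact K) {g g' : V d → V d → ℝ} (h : Ex K r g) (h' : Ex K r g') :
    Ex K r (fun x v => g x v * g' x v) := by
  classical
  obtain ⟨c0, c, h0, h1, C, δ, hC, hδ, h2⟩ := h
  obtain ⟨c0', c', h0', h1', C', δ', hC', hδ', h2'⟩ := h'
  -- the product of the polynomial parts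
  have hP : Ex K r (fun x v => (c0 x + ∑ b, c b x * mon r v b) *
      (c0' x + ∑ b, c' b x * mon r v b)) := by
    have k1 : Ex K r (fun x _ => c0 x * c0' x) := Ex.const hK (h0.mul h0')
    have k2 : Ex K r (fun x v => ∑ b : Mo d r, (c0 x * c' b x) * mon r v b) :=
      Ex.sum Finset.univ fun b _ => Ex.mo hK (h0.mul (h1' b)) _
    have k3 : Ex K r (fun x v => ∑ b : Mo d r, (c b x * c0' x) * mon r v b) :=
      Ex.sum Finset.univ fun b _ => Ex.mo hK ((h1 b).mul h0') _
    have k4 : Ex K r (fun x v => ∑ b : Mo d r, ∑ b' : Mo d r, (c b x * c' b' x) *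
        JT.mo ((fun i => (b.1 i : ℕ)) + fun i => (b'.1 i : ℕ)) v) :=
      Ex.sum Finset.univ fun b _ => Ex.sum Finset.univ fun b' _ =>
        Ex.mo hK ((h1 b).mul (h1' b')) _
    refine (((k1.add k2).add k3).add k4).congr' fun x _ v => ?_
    have e4 : ∑ b : Mo d r, ∑ b' : Mo d r, (c b x * c' b' x) *
        JT.mo ((fun i => (b.1 i : ℕ)) + fun i => (b'.1 i : ℕ)) v =
        (∑ b, c b x * mon r v b) * ∑ b, c' b x * mon r v b := by
      rw [Finset.sum_mul_sum]
      refine Finset.sum_congr rfl fun b _ => Finset.sum_congr rfl fun b' _ => ?_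
      rw [mo_add, mon_eq, mon_eq]
      ring
    have e2 : ∑ b : Mo d r, (c0 x * c' b x) * mon r v b = c0 x * ∑ b, c' b x * mon r v b := by
      rw [Finset.mul_sum]
      exact Finset.sum_congr rfl fun b _ => mul_assoc _ _ _
    have e3 : ∑ b : Mo d r, (c b x * c0' x) * mon r v b = (∑ b, c b x * mon r v b) * c0' x := by
      rw [Finset.sum_mul]
      exact Finset.sum_congr rfl fun b _ => by ring
    rw [e2, e3, e4]
    ring
  -- bounds of the polynomial parts
  have hbd : ∀ (e0 : V d → ℝ) (e : Mo d r → V d → ℝ), ContinuousOn e0 K →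
      (∀ b, ContinuousOn (e b) K) → ∃ B : ℝ, 0 ≤ B ∧ ∀ x ∈ K, ∀ v, ‖v‖ ≤ 1 →
        |e0 x + ∑ b, e b x * mon r v b| ≤ B := by
    intro e0 e he0 he
    obtain ⟨B0, hB0, hB0'⟩ := exists_bd hK he0
    choose B1 hB1 hB1' using fun b => exists_bd hK (he b)
    refine ⟨B0 + ∑ b, B1 b, add_nonneg hB0 (Finset.sum_nonneg fun b _ => hB1 b),
      fun x hx v hv => ?_⟩
    refine (abs_add_le _ _).trans (add_le_add (hB0' x hx) ?_)
    refine (Finset.abs_sum_le_sum_abs _ _).trans (Finset.sum_le_sum fun b _ => ?_)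
    rw [abs_mul]
    calc |e b x| * |mon r v b| ≤ B1 b * 1 :=
          mul_le_mul (hB1' b x hx) ((abs_mon_le b v).trans
            (pow_le_one₀ (norm_nonneg _) hv)) (abs_nonneg _) (hB1 b)
      _ = B1 b := mul_one _
  obtain ⟨B, hB, hB'⟩ := hbd c0 c h0 h1
  obtain ⟨B', hB0', hB''⟩ := hbd c0' c' h0' h1'
  refine hP.congr (C := C * (B' + C') + B * C') (δ := min 1 (min δ δ')) (by positivity)
    (lt_min one_pos (lt_min hδ hδ')) fun x hx v hv => ?_
  have hv1 : ‖v‖ ≤ 1 := hv.trans (min_le_left _ _)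
  have hvδ : ‖v‖ ≤ δ := hv.trans ((min_le_right _ _).trans (min_le_left _ _))
  have hvδ' : ‖v‖ ≤ δ' := hv.trans ((min_le_right _ _).trans (min_le_right _ _))
  have a1 := h2 x hx v hvδ
  have a2 := h2' x hx v hvδ'
  have a3 := hB' x hx v hv1
  have a4 := hB'' x hx v hv1
  have a5 : ‖v‖ ^ (r + 1) ≤ 1 := pow_le_one₀ (norm_nonneg _) hv1
  have a6 : 0 ≤ ‖v‖ ^ (r + 1) := by positivity
  set P := c0 x + ∑ b, c b x * mon r v b
  set P' := c0' x + ∑ b, c' b x * mon r v b
  have a7 : |g' x v| ≤ B' + C' := by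
    have e : g' x v = P' + (g' x v - P') := by ring
    rw [e]
    refine (abs_add_le _ _).trans (add_le_add a4 (a2.trans ?_))
    calc C' * ‖v‖ ^ (r + 1) ≤ C' * 1 := mul_le_mul_of_nonneg_left a5 hC'
      _ = C' := mul_one _
  have e : g x v * g' x v - P * P' = (g x v - P) * g' x v + P * (g' x v - P') := by ring
  rw [e]
  refine (abs_add_le _ _).trans ?_
  rw [abs_mul, abs_mul]
  calc |g x v - P| * |g' x v| + |P| * |g' x v - P'|
      ≤ (C * ‖v‖ ^ (r + 1)) * (B' + C') + B * (C' * ‖v‖ ^ (r + 1)) :=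
        add_le_add (mul_le_mul a1 a7 (abs_nonneg _) (by positivity))
          (mul_le_mul a3 a2 (abs_nonneg _) hB)
    _ = (C * (B' + C') + B * C') * ‖v‖ ^ (r + 1) := by ring

theorem Ex.prod {ι : Type} (hK : IsCompact K) (s : Finset ι) {g : ι → V d → V d → ℝ}
    (h : ∀ i ∈ s, Ex K r (g i)) : Ex K r (fun x v => ∏ i ∈ s, g i x v) := by
  classical
  induction s using Finset.induction_on with
  | empty => simpa using (Ex.const hK (c := fun _ => 1) continuousOn_const : Ex K r _)
  | insert i s hi ih =>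
    have h1 := (h i (Finset.mem_insert_self i s)).mul hK
      (ih fun j hj => h j (Finset.mem_insert_of_mem hj))
    refine h1.congr' fun x _ v => ?_
    rw [Finset.prod_insert hi]

theorem Ex.pow (hK : IsCompact K) {g : V d → V d → ℝ} (h : Ex K r g) (k : ℕ) :
    Ex K r (fun x v => g x v ^ k) := by
  have := Ex.prod hK (Finset.range k) (g := fun _ => g) fun _ _ => h
  refine this.congr' fun x _ v => ?_
  simp

end Pool.Agent.H56.JT
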