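import Mathlib
import Pool.Agent.H56.JT.Defs

/-!
MP_d9606f_gt, full theorem, part (I0): a polynomial of degree at most `r` without constant term
which is `o(|v| ^ s)` has no terms of degree at most `s`; uniqueness of jets (helper56).
-/

open Matrix Filter Asymptotics
open scoped Topology ContDiff

namespace Pool.Agent.H56.JT

open Pool.Agent.H23.DM

theorem coeff_zero_of_isLittleO (q : Polynomial ℝ) (s : ℕ)
    (h : (fun t : ℝ => q.eval t) =o[𝓝[>] (0 : ℝ)] fun t => t ^ s) :
    ∀ k ≤ s, q.coeff k = 0 := by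
  intro k
  induction k using Nat.strong_induction_on with
  | _ k ih =>
    intro hk
    have hdvd : (Polynomial.X : Polynomial ℝ) ^ k ∣ q := by
      rw [Polynomial.X_pow_dvd_iff]
      intro j hj
      exact ih j hj (by omega)
    obtain ⟨q', hq'⟩ := hdvd
    have hc : q.coeff k = q'.eval 0 := by
      rw [hq', Polynomial.coeff_X_pow_mul', if_pos le_rfl, Nat.sub_self,
        Polynomial.coeff_zero_eq_eval_zero]
    rw [hc]
    have h1 : Tendsto (fun t : ℝ => q'.eval t) (𝓝[>] (0 : ℝ)) (𝓝 (q'.eval 0)) :=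
      (q'.continuous.tendsto 0).mono_left nhdsWithin_le_nhds
    have h2 : (fun t : ℝ => q'.eval t) =o[𝓝[>] (0 : ℝ)] fun _ => (1 : ℝ) := by
      rw [isLittleO_iff] at h ⊢
      intro ε hε
      have h3 : ∀ᶠ t : ℝ in 𝓝[>] (0 : ℝ), t ∈ Set.Ioo (0 : ℝ) 1 :=
        Ioo_mem_nhdsGT one_pos
      filter_upwards [h hε, h3] with t ht ht3
      rw [hq'] at ht
      simp only [Polynomial.eval_mul, Polynomial.eval_pow, Polynomial.eval_X, norm_mul, norm_pow,
        Real.norm_eq_abs, abs_of_pos ht3.1] at ht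
      rw [Real.norm_eq_abs, norm_one, mul_one]
      have h4 : t ^ s ≤ t ^ k := pow_le_pow_of_le_one ht3.1.le ht3.2.le hk
      have h5 : t ^ k * |q'.eval t| ≤ t ^ k * ε := by
        calc t ^ k * |q'.eval t| ≤ ε * t ^ s := ht
          _ ≤ ε * t ^ k := mul_le_mul_of_nonneg_left h4 hε.le
          _ = t ^ k * ε := mul_comm _ _
      exact le_of_mul_le_mul_left h5 (pow_pos ht3.1 k)
    have h6 : Tendsto (fun t : ℝ => q'.eval t) (𝓝[>] (0 : ℝ)) (𝓝 0) :=
      (isLittleO_one_iff ℝ).1 h2
    exact tendsto_nhds_unique h1 h6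

/-- The exponent of a multi-index as a finitely supported function. -/
noncomputable def ex {d r : ℕ} (b : Mo d r) : Fin d →₀ ℕ :=
  Finsupp.equivFunOnFinite.symm fun i => (b.1 i : ℕ)

theorem ex_injective {d r : ℕ} : Function.Injective (ex : Mo d r → Fin d →₀ ℕ) := by
  intro a b h
  apply Subtype.ext
  funext i
  apply Fin.ext
  have := DFunLike.congr_fun h i
  simpa [ex] using this

theorem coef_zero {d r : ℕ} (s : ℕ) (c : Mo d r → ℝ)
    (h : (fun v : V d => ∑ b, c b * mon r v b) =o[𝓝 0] fun v => ‖v‖ ^ s) :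
    ∀ b, dg b ≤ s → c b = 0 := by
  classical
  -- the homogeneous parts vanish
  have h1 : ∀ (v : V d) (k : ℕ), k ≤ s →
      ∑ b, (if dg b = k then c b * mon r v b else 0) = 0 := by
    intro v k hk
    let q : Polynomial ℝ := ∑ b : Mo d r, Polynomial.C (c b * mon r v b) * Polynomial.X ^ dg b
    have hq : ∀ t : ℝ, q.eval t = ∑ b, c b * mon r (t • v) b := by
      intro t
      simp only [q, Polynomial.eval_finsetSum, Polynomial.eval_mul, Polynomial.eval_C,
        Polynomial.eval_pow, Polynomial.eval_X]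
      refine Finset.sum_congr rfl fun b _ => ?_
      rw [mon_eq (t • v), mo_smul, mon_eq v]
      change _ = c b * (t ^ dg b * _)
      ring
    have ht : Tendsto (fun t : ℝ => t • v) (𝓝[>] (0 : ℝ)) (𝓝 0) := by
      have : Continuous fun t : ℝ => t • v := by fun_prop
      have h2 := this.tendsto 0
      rw [zero_smul] at h2
      exact h2.mono_left nhdsWithin_le_nhds
    have hlo : (fun t : ℝ => q.eval t) =o[𝓝[>] (0 : ℝ)] fun t => t ^ s := by
      have h3 := h.comp_tendsto ht
      have h4 : (fun t : ℝ => q.eval t) =o[𝓝[>] (0 : ℝ)] fun t => ‖t • v‖ ^ s := by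
        refine h3.congr_left fun t => ?_
        exact (hq t).symm
      refine h4.trans_isBigO ?_
      refine IsBigO.of_bound (‖v‖ ^ s) (Eventually.of_forall fun t => ?_)
      rw [norm_pow, norm_norm, norm_smul, mul_pow, norm_pow, mul_comm]
    have h5 := coeff_zero_of_isLittleO q s hlo k hk
    refine Eq.trans ?_ h5
    simp only [q, Polynomial.finsetSum_coeff, Polynomial.coeff_C_mul, Polynomial.coeff_X_pow]
    refine Finset.sum_congr rfl fun b _ => ?_
    by_cases hb : dg b = k
    · simp [hb]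
    · rw [if_neg hb, if_neg (fun h => hb h.symm), mul_zero]
  intro b0 hb0
  let P : MvPolynomial (Fin d) ℝ :=
    ∑ b : Mo d r, if dg b = dg b0 then MvPolynomial.monomial (ex b) (c b) else 0
  have hP : P = 0 := by
    apply MvPolynomial.funext
    intro x
    have h2 := h1 (WithLp.toLp 2 x) (dg b0) hb0
    rw [map_zero, ← h2, map_sum]
    refine Finset.sum_congr rfl fun b _ => ?_
    by_cases hb : dg b = dg b0
    · rw [if_pos hb, if_pos hb, MvPolynomial.eval_monomial]
      congr 1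
      rw [Finsupp.prod_fintype _ _ (fun i => pow_zero _)]
      rfl
    · rw [if_neg hb, if_neg hb, map_zero]
  have h3 : MvPolynomial.coeff (ex b0) P = c b0 := by
    simp only [P, MvPolynomial.coeff_sum]
    rw [Finset.sum_eq_single b0]
    · rw [if_pos rfl, MvPolynomial.coeff_monomial, if_pos rfl]
    · intro b _ hb
      by_cases hb1 : dg b = dg b0
      · rw [if_pos hb1, MvPolynomial.coeff_monomial, if_neg]
        exact fun h => hb (ex_injective h)
      · rw [if_neg hb1, MvPolynomial.coeff_zero]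
    · intro h
      exact absurd (Finset.mem_univ _) h
  rw [← h3, hP, MvPolynomial.coeff_zero]

/-- A bound by `|v| ^ (s + 1)` near zero gives `o(|v| ^ s)`. -/
theorem isLittleO_of_bound {d s : ℕ} {g : V d → ℝ} {C δ : ℝ} (hδ : 0 < δ)
    (h : ∀ v, ‖v‖ ≤ δ → |g v| ≤ C * ‖v‖ ^ (s + 1)) : g =o[𝓝 0] fun v => ‖v‖ ^ s := by
  have h1 : g =O[𝓝 0] fun v => ‖v‖ ^ (s + 1) := by
    refine IsBigO.of_bound C ?_
    filter_upwards [Metric.closedBall_mem_nhds (0 : V d) hδ] with v hv
    rw [mem_closedBall_zero_iff] at hv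
    rw [norm_pow, norm_norm]
    exact h v hv
  refine h1.trans_isLittleO ?_
  have h2 : (fun v : V d => ‖v‖) =o[𝓝 0] fun _ => (1 : ℝ) := by
    rw [isLittleO_one_iff]
    simpa using (continuous_norm (E := V d)).tendsto 0
  have h3 := (isBigO_refl (fun v : V d => ‖v‖ ^ s) (𝓝 0)).mul_isLittleO h2
  simpa [pow_succ] using h3

/-- Uniqueness of jets. -/
theorem jet_unique {d r : ℕ} (D : Matrix (Mo d r) (Mo d r) ℝ) {C δ : ℝ} (hδ : 0 < δ)
    (h : ∀ v : V d, ‖v‖ ≤ δ → vn (D *ᵥ mon r v) ≤ C * ‖v‖ ^ (r + 1)) : D = 0 := by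
  ext a b
  have h1 : ∀ v : V d, ‖v‖ ≤ δ → |∑ b, D a b * mon r v b| ≤ C * ‖v‖ ^ (r + 1) := fun v hv =>
    (abs_le_vn (D *ᵥ mon r v) a).trans (h v hv)
  exact coef_zero r (D a) (isLittleO_of_bound hδ h1) b (dg_le b)

end Pool.Agent.H56.JT
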