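import Mathlib
import Pool.Agent.H56.JT.Ex
import Pool.Agent.H56.JT.Uni

/-!
MP_d9606f_gt, full theorem, part (I0): Taylor expansions, existence of jets (helper56).

* `ex_taylor`: a smooth function has a uniform polynomial expansion on compact sets.
* `exists_jet`: the matrix `D x` of the jet of a smooth map in the monomials.
-/

open Matrix Filter Asymptotics
open scoped Topology ContDiff Nat

namespace Pool.Agent.H56.JT

open Pool.Agent.H23.DM

variable {d : ℕ} {U K : Set (V d)}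

theorem exists_nbhd (hU : IsOpen U) (hK : IsCompact K) (hKU : K ⊆ U) :
    ∃ δ : ℝ, 0 < δ ∧ ∃ K' : Set (V d), IsCompact K' ∧ K' ⊆ U ∧ ∀ x ∈ K, ∀ v : V d, ‖v‖ ≤ δ →
      x + v ∈ K' := by
  obtain ⟨δ, hδ, hs⟩ := hK.exists_cthickening_subset_open hU hKU
  refine ⟨δ, hδ, Metric.cthickening δ K, hK.cthickening, hs, fun x hx v hv => ?_⟩
  refine Metric.mem_cthickening_of_dist_le (x + v) x δ K hx ?_
  rw [dist_eq_norm, add_sub_cancel_left]
  exact hv

theorem continuousOn_iter (hU : IsOpen U) {f : V d → ℝ} (hf : ContDiffOn ℝ ∞ f U) (k : ℕ) :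
    ContinuousOn (iteratedFDeriv ℝ k f) U := by
  have h1 := hf.continuousOn_iteratedFDerivWithin (m := k) (by exact_mod_cast le_top)
    hU.uniqueDiffOn
  exact h1.congr fun x hx => (iteratedFDerivWithin_of_isOpen k hU hx).symm

theorem multi_expand (k : ℕ) (L : (V d) [×k]→L[ℝ] ℝ) (v : V d) :
    L (fun _ => v) = ∑ s : Fin k → Fin d,
      L (fun j => EuclideanSpace.single (s j) (1 : ℝ)) * ∏ j, v (s j) := by
  classical
  have hv : v = ∑ i, v i • EuclideanSpace.single i (1 : ℝ) := by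
    ext j
    simp [Pi.single_apply]
  have h1 : L (fun _ => v) = L (fun _ : Fin k => ∑ i, v i • EuclideanSpace.single i (1 : ℝ)) := by
    rw [← hv]
  rw [h1, ContinuousMultilinearMap.map_sum]
  refine Finset.sum_congr rfl fun s _ => ?_
  rw [ContinuousMultilinearMap.map_smul_univ, smul_eq_mul, mul_comm]

/-- A smooth function has uniform polynomial expansions on compact sets. -/
theorem ex_taylor (hU : IsOpen U) (hK : IsCompact K) (hKU : K ⊆ U) {f : V d → ℝ}
    (hf : ContDiffOn ℝ ∞ f U) (r : ℕ) : Ex K r (fun x v => f (x + v)) := by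
  classical
  obtain ⟨δ, hδ, K', hK', hKU', hn⟩ := exists_nbhd hU hK hKU
  obtain ⟨B, hB⟩ := hK'.exists_bound_of_continuousOn ((continuousOn_iter hU hf (r + 1)).mono hKU')
  have hG : Ex K r (fun x v => ∑ k ∈ Finset.range (r + 1),
      ((k ! : ℝ)⁻¹ • (iteratedFDeriv ℝ k f x (fun _ => v)))) := by
    refine Ex.sum _ fun k _ => ?_
    have h1 : Ex K r (fun x v => ∑ s : Fin k → Fin d, ((k ! : ℝ)⁻¹ *
        iteratedFDeriv ℝ k f x (fun j => EuclideanSpace.single (s j) (1 : ℝ))) *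
          ∏ j : Fin k, v (s j)) := by
      refine Ex.sum _ fun s _ => ?_
      refine Ex.mul hK (Ex.const hK ?_) (Ex.prod hK _ fun j _ => Ex.coord hK _)
      refine continuousOn_const.mul ?_
      have h2 : Continuous fun L : (V d) [×k]→L[ℝ] ℝ =>
          L (fun j => EuclideanSpace.single (s j) (1 : ℝ)) := by
        fun_prop
      exact h2.comp_continuousOn ((continuousOn_iter hU hf k).mono hKU)
    refine h1.congr' fun x _ v => ?_
    rw [multi_expand, smul_eq_mul, Finset.mul_sum]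
    exact Finset.sum_congr rfl fun s _ => (mul_assoc _ _ _).symm
  refine hG.congr (C := max B 0) (δ := δ) (le_max_right _ _) hδ fun x hx v hv => ?_
  have hseg : ∀ t : ℝ, t ∈ Set.Icc (0 : ℝ) 1 → x + t • v ∈ K' := by
    intro t ht
    refine hn x hx _ ?_
    rw [norm_smul, Real.norm_eq_abs, abs_of_nonneg ht.1]
    calc t * ‖v‖ ≤ 1 * ‖v‖ := mul_le_mul_of_nonneg_right ht.2 (norm_nonneg _)
      _ ≤ δ := by rw [one_mul]; exact hv
  have htay := map_add_eq_sum_add_integral_iteratedFDeriv (f := f) (x := x) (y := v) (n := r)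
    (fun t ht => (hf.contDiffAt (hU.mem_nhds (hKU' (hseg t ht)))).of_le
      (by exact_mod_cast le_top))
  have e : f (x + v) - ∑ k ∈ Finset.range (r + 1),
      ((k ! : ℝ)⁻¹ • (iteratedFDeriv ℝ k f x (fun _ => v))) =
      (r ! : ℝ)⁻¹ • ∫ t in (0 : ℝ)..1, (1 - t) ^ r •
        iteratedFDeriv ℝ (r + 1) f (x + t • v) (fun _ => v) := by
    rw [htay]
    ring
  rw [e, smul_eq_mul, abs_mul]
  have h3 : ‖∫ t in (0 : ℝ)..1, (1 - t) ^ r •
      iteratedFDeriv ℝ (r + 1) f (x + t • v) (fun _ => v)‖ ≤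
      (max B 0 * ‖v‖ ^ (r + 1)) * |(1 : ℝ) - 0| := by
    refine intervalIntegral.norm_integral_le_of_norm_le_const fun t ht => ?_
    rw [Set.uIoc_of_le zero_le_one] at ht
    have ht' : t ∈ Set.Icc (0 : ℝ) 1 := ⟨ht.1.le, ht.2⟩
    rw [norm_smul, norm_pow, Real.norm_eq_abs, abs_of_nonneg (by linarith [ht.2] : 0 ≤ 1 - t)]
    have h4 : (1 - t) ^ r ≤ 1 := pow_le_one₀ (by linarith [ht.2]) (by linarith [ht.1])
    have h5 : ‖iteratedFDeriv ℝ (r + 1) f (x + t • v) (fun _ => v)‖ ≤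
        max B 0 * ‖v‖ ^ (r + 1) := by
      refine (ContinuousMultilinearMap.le_opNorm _ _).trans ?_
      rw [Finset.prod_const, Finset.card_univ, Fintype.card_fin]
      exact mul_le_mul_of_nonneg_right ((hB _ (hseg t ht')).trans (le_max_left _ _))
        (by positivity)
    calc (1 - t) ^ r * ‖iteratedFDeriv ℝ (r + 1) f (x + t • v) (fun _ => v)‖
        ≤ 1 * (max B 0 * ‖v‖ ^ (r + 1)) :=
          mul_le_mul h4 h5 (norm_nonneg _) zero_le_one
      _ = max B 0 * ‖v‖ ^ (r + 1) := one_mul _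
  rw [sub_zero, abs_one, mul_one] at h3
  have h6 : |(r ! : ℝ)⁻¹| ≤ 1 := by
    rw [abs_of_nonneg (by positivity)]
    exact inv_le_one_of_one_le₀ (by exact_mod_cast Nat.one_le_iff_ne_zero.2 (Nat.factorial_ne_zero r))
  calc |(r ! : ℝ)⁻¹| * |∫ t in (0 : ℝ)..1, (1 - t) ^ r •
        iteratedFDeriv ℝ (r + 1) f (x + t • v) (fun _ => v)|
      ≤ 1 * (max B 0 * ‖v‖ ^ (r + 1)) := mul_le_mul h6 h3 (abs_nonneg _) zero_le_one
    _ = max B 0 * ‖v‖ ^ (r + 1) := one_mul _

end Pool.Agent.H56.JT
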