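import Mathlib
import Pool.Agent.H56.JT.Tay

/-!
MP_d9606f_gt, full theorem, part (I0): existence of jets (helper56).

`exists_jet`: for a smooth map `f` on the open set `U` and a compact set `K ⊆ U` there are matrices
`D x`, continuous on `K`, with `mon r (f (x + v) - f x) = D x *ᵥ mon r v + O(|v| ^ (r + 1))`; they are
block triangular, and the block of the degree one is the derivative.
-/

open Matrix Filter Asymptotics
open scoped Topology ContDiff Nat

namespace Pool.Agent.H56.JT

open Pool.Agent.H23.DM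

variable {d r : ℕ} {U K : Set (V d)}

theorem norm_pow_isLittleO (s : ℕ) :
    (fun v : V d => ‖v‖ ^ (s + 1)) =o[𝓝 0] fun v => ‖v‖ ^ s := by
  refine isLittleO_of_bound (C := 1) one_pos fun v _ => ?_
  rw [abs_of_nonneg (by positivity), one_mul]

theorem norm_pow_isBigO {s t : ℕ} (h : s ≤ t) :
    (fun v : V d => ‖v‖ ^ t) =O[𝓝 0] fun v => ‖v‖ ^ s := by
  refine IsBigO.of_bound 1 ?_
  filter_upwards [Metric.closedBall_mem_nhds (0 : V d) one_pos] with v hv
  rw [mem_closedBall_zero_iff] at hv
  rw [norm_pow, norm_pow, norm_norm, one_mul]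
  exact pow_le_pow_of_le_one (norm_nonneg _) hv h

theorem e1_injective (hr : 0 < r) : Function.Injective (e1 hr : Fin d → Mo d r) := by
  intro i j h
  by_contra hij
  have h1 := congrFun (congrArg Subtype.val h) i
  simp only [e1, if_true] at h1
  rw [if_neg hij] at h1
  have h2 := congrArg Fin.val h1
  simp at h2

theorem exists_jet (hU : IsOpen U) (hK : IsCompact K) (hKU : K ⊆ U) {f : V d → V d}
    (hf : ContDiffOn ℝ ∞ f U) (r : ℕ) :
    ∃ (D : V d → Matrix (Mo d r) (Mo d r) ℝ) (C δ : ℝ), 0 ≤ C ∧ 0 < δ ∧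
      (∀ a b, ContinuousOn (fun x => D x a b) K) ∧
      (∀ x ∈ K, ∀ v : V d, ‖v‖ ≤ δ → x + v ∈ U ∧
        vn (mon r (f (x + v) - f x) - D x *ᵥ mon r v) ≤ C * ‖v‖ ^ (r + 1)) ∧
      (∀ x ∈ K, ∀ a b, dg b < dg a → D x a b = 0) ∧
      (∀ (hr : 0 < r), ∀ x ∈ K, ∀ i j, D x (e1 hr i) (e1 hr j) =
        fderiv ℝ f x (EuclideanSpace.single j 1) i) := by
  classical
  obtain ⟨δ0, hδ0, K', hK', hKU', hn⟩ := exists_nbhd hU hK hKU
  have hfi : ∀ i : Fin d, ContDiffOn ℝ ∞ (fun y => f y i) U := fun i =>
    contDiffOn_euclidean.1 hf i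
  have hG : ∀ i : Fin d, Ex K r (fun x v => f (x + v) i - f x i) := by
    intro i
    have h1 := ex_taylor hU hK hKU (hfi i) r
    have h2 : Ex K r (fun x _ => -(f x i)) :=
      Ex.const hK (((hfi i).continuousOn.mono hKU).neg)
    exact (h1.add h2).congr' fun x _ v => rfl
  have hM : ∀ a : Mo d r, Ex K r (fun x v => mon r (f (x + v) - f x) a) := by
    intro a
    exact (Ex.prod hK Finset.univ fun i _ => (hG i).pow hK (a.1 i : ℕ)).congr' fun x _ v => rfl
  choose c0 c hc0 hc C δ hC hδ hb using hM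
  have hz : ∀ a, ∀ x ∈ K, c0 a x = 0 := by
    intro a x hx
    have h1 := hb a x hx 0 (by rw [norm_zero]; exact (hδ a).le)
    simp only [add_zero, sub_self, mon_at_zero, mul_zero, Finset.sum_const_zero, zero_sub,
      abs_neg, norm_zero, pow_succ] at h1
    exact abs_nonpos_iff.1 h1
  have hb' : ∀ a, ∀ x ∈ K, ∀ v : V d, ‖v‖ ≤ δ a →
      |mon r (f (x + v) - f x) a - ∑ b, c a b x * mon r v b| ≤ C a * ‖v‖ ^ (r + 1) := by
    intro a x hx v hv
    have h1 := hb a x hx v hv
    rwa [hz a x hx, zero_add] at h1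
  have hsmall : ∀ a, ∀ x ∈ K, (fun v : V d => mon r (f (x + v) - f x) a -
      ∑ b, c a b x * mon r v b) =O[𝓝 0] fun v => ‖v‖ ^ (r + 1) := by
    intro a x hx
    refine IsBigO.of_bound (C a) ?_
    filter_upwards [Metric.closedBall_mem_nhds (0 : V d) (hδ a)] with v hv
    rw [mem_closedBall_zero_iff] at hv
    rw [norm_pow, norm_norm]
    exact hb' a x hx v hv
  have hdiff : ∀ x ∈ K, (fun v : V d => f (x + v) - f x - fderiv ℝ f x v) =o[𝓝 0] fun v => v := by
    intro x hx
    have h1 : DifferentiableAt ℝ f x :=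
      (hf.contDiffAt (hU.mem_nhds (hKU hx))).differentiableAt (by simp)
    exact hasFDerivAt_iff_isLittleO_nhds_zero.1 h1.hasFDerivAt
  let δm : ℝ := Finset.univ.inf' (Finset.univ_nonempty (α := Option (Mo d r)))
    (fun o => o.elim δ0 δ)
  have hδm : 0 < δm := by
    refine (Finset.lt_inf'_iff _).2 fun o _ => ?_
    cases o with
    | none => exact hδ0
    | some a => exact hδ a
  have hδm0 : δm ≤ δ0 := Finset.inf'_le (fun o : Option (Mo d r) => o.elim δ0 δ)
    (Finset.mem_univ none)
  have hδma : ∀ a, δm ≤ δ a := fun a =>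
    Finset.inf'_le (fun o : Option (Mo d r) => o.elim δ0 δ) (Finset.mem_univ (some a))
  refine ⟨fun x a b => c a b x, ∑ a, C a, δm, Finset.sum_nonneg fun a _ => hC a, hδm,
    fun a b => hc a b, fun x hx v hv => ⟨hKU' (hn x hx v (hv.trans hδm0)), ?_⟩, ?_, ?_⟩
  · refine (vn_le_sum _).trans ?_
    rw [Finset.sum_mul]
    exact Finset.sum_le_sum fun a _ => hb' a x hx v (hv.trans (hδma a))
  · intro x hx a b hab
    have hlip : (fun v : V d => f (x + v) - f x) =O[𝓝 0] fun v => v := by
      have h1 := (hdiff x hx).isBigO.add (ContinuousLinearMap.isBigO_id (fderiv ℝ f x) (𝓝 0))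
      refine h1.congr_left fun v => ?_
      abel
    have h2 : (fun v : V d => mon r (f (x + v) - f x) a) =O[𝓝 0] fun v => ‖v‖ ^ dg a := by
      have h3 : (fun v : V d => mon r (f (x + v) - f x) a) =O[𝓝 0]
          fun v => ‖f (x + v) - f x‖ ^ dg a := by
        refine IsBigO.of_bound 1 (Eventually.of_forall fun v => ?_)
        rw [norm_pow, norm_norm, one_mul]
        exact abs_mon_le a _
      exact h3.trans (hlip.norm_norm.pow (dg a))
    have h4 : (fun v : V d => ∑ b, c a b x * mon r v b) =O[𝓝 0] fun v => ‖v‖ ^ dg a := by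
      have h5 := h2.sub ((hsmall a x hx).trans (norm_pow_isBigO (d := d)
        (by have := dg_le a; omega : dg a ≤ r + 1)))
      refine h5.congr_left fun v => ?_
      ring
    have h6 : (fun v : V d => ∑ b, c a b x * mon r v b) =o[𝓝 0] fun v => ‖v‖ ^ (dg a - 1) := by
      have h7 := norm_pow_isLittleO (d := d) (dg a - 1)
      rw [Nat.sub_add_cancel (one_le_dg a)] at h7
      exact h4.trans_isLittleO h7
    exact coef_zero (dg a - 1) (fun b => c a b x) h6 b (by omega)
  · intro hr x hx i j
    let y : Fin d → ℝ := fun k => fderiv ℝ f x (EuclideanSpace.single k 1) i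
    have hy : ∀ v : V d, fderiv ℝ f x v i = ∑ k, y k * v k := by
      intro v
      have hv : v = ∑ k, v k • EuclideanSpace.single k (1 : ℝ) := by
        ext j
        simp [Pi.single_apply]
      have h1 : fderiv ℝ f x v = ∑ k, v k • fderiv ℝ f x (EuclideanSpace.single k (1 : ℝ)) := by
        conv_lhs => rw [hv]
        rw [map_sum]
        refine Finset.sum_congr rfl fun k _ => ?_
        rw [map_smul]
      rw [h1, WithLp.ofLp_sum, Finset.sum_apply]
      refine Finset.sum_congr rfl fun k _ => ?_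
      rw [WithLp.ofLp_smul, Pi.smul_apply, smul_eq_mul, mul_comm]
    let c' : Mo d r → ℝ := fun b => c (e1 hr i) b x - ∑ k, if b = e1 hr k then y k else 0
    have hc' : ∀ v : V d, ∑ b, c' b * mon r v b =
        (∑ b, c (e1 hr i) b x * mon r v b) - fderiv ℝ f x v i := by
      intro v
      simp only [c', sub_mul, Finset.sum_sub_distrib]
      congr 1
      rw [hy]
      simp only [Finset.sum_mul]
      rw [Finset.sum_comm]
      refine Finset.sum_congr rfl fun k _ => ?_
      rw [Finset.sum_eq_single (e1 hr k)]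
      · rw [if_pos rfl, mon_e1]
      · intro b _ hb
        rw [if_neg hb, zero_mul]
      · intro h
        exact absurd (Finset.mem_univ _) h
    have hlo : (fun v : V d => ∑ b, c' b * mon r v b) =o[𝓝 0] fun v => ‖v‖ ^ 1 := by
      have h1 : (fun v : V d => (f (x + v) - f x - fderiv ℝ f x v) i) =o[𝓝 0]
          fun v => ‖v‖ ^ 1 := by
        simp only [pow_one]
        refine IsBigO.trans_isLittleO ?_ (hdiff x hx).norm_right
        refine IsBigO.of_bound 1 (Eventually.of_forall fun v => ?_)
        rw [one_mul]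
        exact abs_apply_le _ i
      have h2 : (fun v : V d => mon r (f (x + v) - f x) (e1 hr i) -
          ∑ b, c (e1 hr i) b x * mon r v b) =o[𝓝 0] fun v => ‖v‖ ^ 1 :=
        (hsmall (e1 hr i) x hx).trans_isLittleO
          ((norm_pow_isBigO (d := d) (by omega : 2 ≤ r + 1)).trans_isLittleO
            (norm_pow_isLittleO 1))
      refine (h1.sub h2).congr_left fun v => ?_
      rw [hc', mon_e1]
      change (f (x + v) - f x) i - fderiv ℝ f x v i - _ = _
      ring
    have h3 := coef_zero 1 c' hlo (e1 hr j) (dg_e1 hr j).le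
    have h4 : (∑ k, if e1 hr j = e1 hr k then y k else 0) = y j := by
      rw [Finset.sum_eq_single j]
      · rw [if_pos rfl]
      · intro k _ hk
        rw [if_neg]
        exact fun h => hk (e1_injective hr h).symm
      · intro h
        exact absurd (Finset.mem_univ _) h
    simp only [c', h4] at h3
    change c (e1 hr i) (e1 hr j) x = y j
    linarith

end Pool.Agent.H56.JT
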