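import Mathlib
import Pool.Agent.H56.JT.Jet
import Pool.Agent.H73.LX.Fb

/-!
MP_d9606f_gt, full theorem, part (I0): the monomials as an object of helper73's structure `MonD`
(helper56).
-/

open Matrix Filter
open scoped Topology ContDiff

namespace Pool.Agent.H56.JT

open Pool.Agent.H23.DM Pool.Agent.H73.LX Pool.Agent.H73.PZ

theorem exists_e1 {d r : ℕ} (hr : 0 < r) (a : Mo d r) (h : dg a = 1) : ∃ i, e1 hr i = a := by
  classical
  have h0 : ∃ i, (a.1 i : ℕ) ≠ 0 := by
    by_contra hcon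
    push Not at hcon
    have h1 : dg a = 0 := Finset.sum_eq_zero fun i _ => hcon i
    omega
  obtain ⟨i, hi⟩ := h0
  have h2 : (a.1 i : ℕ) + ∑ j ∈ Finset.univ.erase i, (a.1 j : ℕ) = 1 := by
    rw [Finset.add_sum_erase Finset.univ (fun j => (a.1 j : ℕ)) (Finset.mem_univ i)]
    exact h
  have h3 : ∑ j ∈ Finset.univ.erase i, (a.1 j : ℕ) = 0 := by omega
  have h4 : (a.1 i : ℕ) = 1 := by omega
  refine ⟨i, Subtype.ext (funext fun j => Fin.ext ?_)⟩
  by_cases hj : j = i
  · subst hj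
    simp [e1, h4]
  · have h5 := Finset.sum_eq_zero_iff.1 h3 j (Finset.mem_erase.2 ⟨hj, Finset.mem_univ j⟩)
    simp [e1, hj, h5]

theorem two_le_dg {d r : ℕ} (hr : 0 < r) (a : Mo d r) (h : a ∉ Set.range (e1 hr)) : 2 ≤ dg a := by
  by_contra hcon
  have h1 := one_le_dg a
  exact h (exists_e1 hr a (by omega))

/-- The monomials of degree between `1` and `r`. -/
def monD (d r : ℕ) (hr : 1 ≤ r) : MonD d r where
  ν := Mo d r
  fin := inferInstance
  dec := inferInstance
  mon := mon r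
  e := e1 hr
  inj := e1_injective hr
  lin v k := mon_e1 hr k v
  le1 v a hv := by
    refine (abs_mon_le a v).trans ?_
    calc ‖v‖ ^ dg a ≤ ‖v‖ ^ 1 := pow_le_pow_of_le_one (norm_nonneg _) hv (one_le_dg a)
      _ = ‖v‖ := pow_one _
  le2 v a hv ha := (abs_mon_le a v).trans
    (pow_le_pow_of_le_one (norm_nonneg _) hv (two_le_dg hr a ha))
  jets := by
    intro U K f hU hK hKU hf
    obtain ⟨D, C, δ, -, hδ, hc, hb, ht, hl⟩ := exists_jet hU hK hKU hf r
    refine ⟨D, hc, C, δ, hδ, fun x hx => ⟨⟨fun a k ha => ?_, fun l k => hl hr x hx l k⟩,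
      fun v hv => hb x hx v hv⟩⟩
    refine ht x hx a (e1 hr k) ?_
    rw [dg_e1]
    have := two_le_dg hr a ha
    omega
  uniq := fun _ _ _ hδ h => jet_unique _ hδ h

end Pool.Agent.H56.JT
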